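import Mathlib
import Pool.Agent.V11133.NR

/-!
# A transfer principle for arrowing relations between families of cliques

Using the Nešetřil–Rödl theorem for edge-coloured graphs.
-/

namespace V11133.NR

/-- `G → (K_{a 0}, …, K_{a (r-1)})`. -/
def Arrows {V : Type} (G : SimpleGraph V) {r : ℕ} (a : Fin r → ℕ) : Prop :=
  ∀ χ : G.edgeSet → Fin r, ∃ (i : Fin r) (s : Finset V), s.card = a i ∧
    ∀ x ∈ s, ∀ y ∈ s, x ≠ y → ∃ h : s(x, y) ∈ G.edgeSet, χ ⟨s(x, y), h⟩ = i

/-- The transfer principle. The `w j` are edge-colourings of cliques (on `0, …, s j - 1`) with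
colours from `Fin q` such that no `m c` vertices are pairwise joined in colour `c`.  If for every
`φ : Fin q → Fin r` one of them contains, after recolouring by `φ`, a clique with `a t` vertices in
some colour `t`, then there is a graph that arrows `a` but not `m`. -/
theorem transfer {q r : ℕ} (hr : 0 < r) (m : Fin q → ℕ) (hm : ∀ c, 2 ≤ m c) (a : Fin r → ℕ)
    {J : Type} [Finite J] (s : J → ℕ) (w : J → ℕ → ℕ → Fin q)
    (wsymm : ∀ j x y, w j x y = w j y x)
    (good : ∀ j c, ∀ T : Finset ℕ, (∀ x ∈ T, x < s j) →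
      (∀ x ∈ T, ∀ y ∈ T, x ≠ y → w j x y = c) → T.card ≠ m c)
    (cover : ∀ φ : Fin q → Fin r, ∃ (j : J) (t : Fin r) (T : Finset ℕ), (∀ x ∈ T, x < s j) ∧
      T.card = a t ∧ ∀ x ∈ T, ∀ y ∈ T, x ≠ y → φ (w j x y) = t) :
    ∃ (V : Type) (_ : Finite V) (G : SimpleGraph V), ¬ Arrows G m ∧ Arrows G a := by
  classical
  have : Nonempty (Fin r) := ⟨⟨0, hr⟩⟩
  -- a common bound for the `s j`
  obtain ⟨M, hM⟩ : ∃ M, ∀ j, s j ≤ M := by
    have := Fintype.ofFinite J
    exact ⟨Finset.univ.sup s, fun j => Finset.le_sup (f := s) (Finset.mem_univ j)⟩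
  -- the coloured graph
  let D : Fin q → SimpleGraph (J × Fin M) := fun c =>
    { Adj := fun p p' => p.1 = p'.1 ∧ p.2 ≠ p'.2 ∧ p.2.1 < s p.1 ∧ p'.2.1 < s p.1 ∧
        w p.1 p.2.1 p'.2.1 = c
      symm := ⟨by
        rintro ⟨j, x⟩ ⟨j', y⟩ ⟨h1, h2, h3, h4, h5⟩
        simp only at h1 h2 h3 h4 h5
        subst h1
        exact ⟨rfl, h2.symm, h4, h3, by rw [wsymm]; exact h5⟩⟩
      loopless := ⟨fun p h => h.2.1 rfl⟩ }
  obtain ⟨n, ⟨ε⟩⟩ := Finite.exists_equiv_fin (J × Fin M)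
  let B : Fin q → SimpleGraph (Fin n) := fun c => (D c).comap ε.symm
  have hB : ∀ c d x y, (B c).Adj x y → (B d).Adj x y → c = d := by
    intro c d x y h1 h2
    exact h1.2.2.2.2.symm.trans h2.2.2.2.2
  have hBm : ∀ c, (B c).CliqueFree (m c) := by
    intro c S hS
    have hcl := hS.isClique
    have hcard := hS.card_eq
    have h2 := hm c
    have hne : S.Nonempty := by
      rw [← Finset.card_pos]; omega
    obtain ⟨p0, hp0⟩ := hne
    have hj : ∀ p ∈ S, (ε.symm p).1 = (ε.symm p0).1 := by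
      intro p hp
      by_cases h : p = p0
      · rw [h]
      · exact (hcl hp hp0 h).1
    have hinj : Set.InjOn (fun p => (ε.symm p).2.1) (S : Set (Fin n)) := by
      intro p hp p' hp' h
      by_contra hne
      exact (hcl hp hp' hne).2.1 (Fin.ext h)
    refine good (ε.symm p0).1 c (S.image (fun p => (ε.symm p).2.1)) ?_ ?_ ?_
    · intro x hx
      obtain ⟨p, hp, rfl⟩ := Finset.mem_image.1 hx
      obtain ⟨p', hp', hne⟩ := Finset.exists_mem_ne (s := S) (by omega) p
      have := (hcl hp hp' hne.symm).2.2.1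
      rw [hj p hp] at this
      exact this
    · intro x hx y hy hxy
      obtain ⟨p, hp, rfl⟩ := Finset.mem_image.1 hx
      obtain ⟨p', hp', rfl⟩ := Finset.mem_image.1 hy
      have hne : p ≠ p' := fun h => hxy (by rw [h])
      have := (hcl hp hp' hne).2.2.2.2
      rw [hj p hp] at this
      exact this
    · rw [Finset.card_image_of_injOn hinj, hcard]
  obtain ⟨X, hX, Γ, hΓ, hΓm, hNR⟩ := nesetrilRodl n B hB m hm hBm (Fin r)
  let G : SimpleGraph X :=
    { Adj := fun x y => ∃ c, (Γ c).Adj x y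
      symm := ⟨fun x y ⟨c, h⟩ => ⟨c, h.symm⟩⟩
      loopless := ⟨fun x ⟨c, h⟩ => h.ne rfl⟩ }
  refine ⟨X, hX, G, ?_, ?_⟩
  · -- the colouring by `Γ`
    intro hA
    have hex : ∀ e : G.edgeSet, ∃ c, (e : Sym2 X) ∈ (Γ c).edgeSet := by
      rintro ⟨e, he⟩
      induction e using Sym2.ind with
      | _ x y =>
        obtain ⟨c, hc⟩ := (SimpleGraph.mem_edgeSet G).1 he
        exact ⟨c, hc⟩
    choose χ hχ using hex
    obtain ⟨i, S, hS, h⟩ := hA χ
    refine hΓm i S ⟨?_, hS⟩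
    intro x hx y hy hxy
    obtain ⟨hG, hi⟩ := h x hx y hy hxy
    have := hχ ⟨s(x, y), hG⟩
    rw [hi] at this
    exact this
  · intro χ
    obtain ⟨e, φ, he⟩ := hNR (fun x y => if h : s(x, y) ∈ G.edgeSet then χ ⟨s(x, y), h⟩
      else Classical.arbitrary (Fin r))
    obtain ⟨j, t, T, hT1, hT2, hT3⟩ := cover φ
    have key : ∀ c i j, (B c).Adj i j → ∃ h : s(e i, e j) ∈ G.edgeSet,
        χ ⟨s(e i, e j), h⟩ = φ c := by
      intro c i j hij
      rcases lt_trichotomy i j with hlt | heq | hgt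
      · obtain ⟨h1, h2⟩ := he c i j hlt hij
        have h3 : s(e i, e j) ∈ G.edgeSet := ⟨c, h1⟩
        refine ⟨h3, ?_⟩
        rw [dif_pos h3] at h2
        exact h2
      · exact absurd heq hij.ne
      · obtain ⟨h1, h2⟩ := he c j i hgt hij.symm
        have h3 : s(e j, e i) ∈ G.edgeSet := ⟨c, h1⟩
        have h4 : s(e i, e j) = s(e j, e i) := Sym2.eq_swap
        have h5 : s(e i, e j) ∈ G.edgeSet := by rw [h4]; exact h3
        refine ⟨h5, ?_⟩
        rw [dif_pos h3] at h2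
        rw [← h2]
        congr 1
        exact Subtype.ext h4
    -- the image of `T`
    let g : {x // x ∈ T} → X := fun x => e (ε (j, ⟨x.1, (hT1 x.1 x.2).trans_le (hM j)⟩))
    have hg : ∀ x y : {x // x ∈ T}, x ≠ y → ∃ h : s(g x, g y) ∈ G.edgeSet,
        χ ⟨s(g x, g y), h⟩ = t := by
      intro x y hxy
      have hxy' : x.1 ≠ y.1 := fun h => hxy (Subtype.ext h)
      have hadj : (B (w j x.1 y.1)).Adj (ε (j, ⟨x.1, (hT1 x.1 x.2).trans_le (hM j)⟩))
          (ε (j, ⟨y.1, (hT1 y.1 y.2).trans_le (hM j)⟩)) := by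
        have h1 := hT1 x.1 x.2
        have h2 := hT1 y.1 y.2
        change (D (w j x.1 y.1)).Adj (ε.symm (ε _)) (ε.symm (ε _))
        rw [ε.symm_apply_apply, ε.symm_apply_apply]
        exact ⟨rfl, fun h => hxy' (congrArg Fin.val h), h1, h2, rfl⟩
      obtain ⟨h, h'⟩ := key _ _ _ hadj
      exact ⟨h, h'.trans (hT3 x.1 x.2 y.1 y.2 hxy')⟩
    have hginj : Function.Injective g := by
      intro x y hxy
      by_contra hne
      obtain ⟨h, -⟩ := hg x y hne
      exact ((SimpleGraph.mem_edgeSet G).1 h).ne hxy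
    refine ⟨t, T.attach.image g, ?_, ?_⟩
    · rw [Finset.card_image_of_injective _ hginj, Finset.card_attach, hT2]
    · intro x hx y hy hxy
      obtain ⟨x', -, rfl⟩ := Finset.mem_image.1 hx
      obtain ⟨y', -, rfl⟩ := Finset.mem_image.1 hy
      exact hg x' y' (fun h => hxy (by rw [h]))

end V11133.NR
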