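import Pool.Agent.V11133.FrozenP5C4

/-! Kernel evaluation of the certificate for S08250. -/

set_option autoImplicit false
set_option maxRecDepth 100000

namespace Pool.Agent.V11133.FrozenP5

theorem chk : check troot 0 0 0 0 = true := by decide +kernel

end Pool.Agent.V11133.FrozenP5
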