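import Pool.Agent.V11133.FrozenP5

/-! Soundness of the checker of `FrozenP5.lean`. -/

set_option autoImplicit false

namespace Pool.Agent.V11133.FrozenP5

variable {V : Type} {G : SimpleGraph V}

theorem testBit_or_shift {m a x : Nat} (h : (m ||| (1 <<< a)).testBit x = true) :
    m.testBit x = true ∨ x = a := by
  rw [Nat.testBit_or, Bool.or_eq_true] at h
  rcases h with h | h
  · exact Or.inl h
  · right
    rw [Nat.testBit_shiftLeft] at h
    simp only [Bool.and_eq_true, decide_eq_true_eq] at h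
    obtain ⟨h1, h2⟩ := h
    have h3 : x - a = 0 := by
      by_contra hne
      rw [Nat.testBit_lt_two_pow (Nat.one_lt_two_pow hne)] at h2
      exact Bool.noConfusion h2
    omega

theorem noCol_sound (d : V → Fin 3) (hd : ∀ u v, G.Adj u v → d u ≠ d v) (pos : Nat) (f : Nat → V)
    (hpos : ∀ x, pos.testBit x = true → G.Adj (f (x / 16)) (f (x % 16))) :
    ∀ n code c0 c1 c2 : Nat, (∀ b, c0.testBit b = true → d (f b) = 0) →
      (∀ b, c1.testBit b = true → d (f b) = 1) → (∀ b, c2.testBit b = true → d (f b) = 2) →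
      noCol pos n code c0 c1 c2 = true → False := by
  intro n
  induction n with
  | zero =>
    intro code c0 c1 c2 _ _ _ h
    simp [noCol] at h
  | succ n ih =>
    intro code c0 c1 c2 h0 h1 h2 h
    rw [noCol] at h
    simp only [Bool.and_eq_true, Bool.or_eq_true] at h
    obtain ⟨⟨ha, hb⟩, hc⟩ := h
    set v := code % 16 with hv
    have hvlt : v < 16 := Nat.mod_lt _ (by norm_num)
    have key : ∀ (cc : Nat) (j : Fin 3), (∀ b, cc.testBit b = true → d (f b) = j) → d (f v) = j →
        (!((pos >>> (16 * v)) % 65536 &&& cc == 0)) = true → False := by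
      intro cc j hcc hdv hne
      have hne' : ((pos >>> (16 * v)) % 65536 &&& cc) ≠ 0 := by
        intro h0
        rw [h0] at hne
        simp at hne
      obtain ⟨b, hb⟩ := Nat.exists_testBit_of_ne_zero hne'
      rw [Nat.testBit_and, Bool.and_eq_true] at hb
      obtain ⟨hb1, hb2⟩ := hb
      rw [show (65536 : Nat) = 2 ^ 16 by norm_num, Nat.testBit_mod_two_pow] at hb1
      simp only [Bool.and_eq_true, decide_eq_true_eq] at hb1
      obtain ⟨hb16, hbp⟩ := hb1
      rw [Nat.testBit_shiftRight] at hbp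
      have := hpos _ hbp
      rw [show (16 * v + b) / 16 = v by omega, show (16 * v + b) % 16 = b by omega] at this
      exact hd _ _ this (by rw [hdv, hcc b hb2])
    have ext : ∀ (cc : Nat) (j : Fin 3), (∀ b, cc.testBit b = true → d (f b) = j) → d (f v) = j →
        (∀ b, (cc ||| (1 <<< v)).testBit b = true → d (f b) = j) := by
      intro cc j hcc hdv b hb
      rcases testBit_or_shift hb with h | h
      · exact hcc b h
      · rw [h]; exact hdv
    have h3 : d (f v) = 0 ∨ d (f v) = 1 ∨ d (f v) = 2 := by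
      generalize d (f v) = y
      revert y; decide
    rcases h3 with h3 | h3 | h3
    · rcases ha with ha | ha
      · exact key c0 0 h0 h3 ha
      · exact ih _ _ _ _ (ext c0 0 h0 h3) h1 h2 ha
    · rcases hb with hb | hb
      · exact key c1 1 h1 h3 hb
      · exact ih _ _ _ _ h0 (ext c1 1 h1 h3) h2 hb
    · rcases hc with hc | hc
      · exact key c2 2 h2 h3 hc
      · exact ih _ _ _ _ h0 h1 (ext c2 2 h2 h3) hc

/-- The sequence `f` realises the recorded state. -/
structure Inv (G : SimpleGraph V) (c : V → Fin 4) (k cl pos neg : Nat) (f : Nat → V) : Prop where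
  hk : k ≤ 15
  hcl : cl < 2 ^ (4 * (k + 1))
  h1 : ∀ i, i ≤ k → (c (f i)).val = (cl >>> (4 * i)) % 16
  h2 : ∀ x, pos.testBit x = true → x / 16 ≤ k ∧ x % 16 ≤ k ∧ G.Adj (f (x / 16)) (f (x % 16))
  h3 : ∀ x, neg.testBit x = true → x / 16 ≤ k ∧ x % 16 ≤ k ∧ ¬ G.Adj (f (x / 16)) (f (x % 16))

theorem cl_old (cl j k i : Nat) (hi : i ≤ k) :
    ((cl ||| (j <<< (4 * (k + 1)))) >>> (4 * i)) % 16 = (cl >>> (4 * i)) % 16 := by
  apply Nat.eq_of_testBit_eq
  intro b
  rw [show (16 : Nat) = 2 ^ 4 by norm_num, Nat.testBit_mod_two_pow, Nat.testBit_mod_two_pow,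
    Nat.testBit_shiftRight, Nat.testBit_shiftRight, Nat.testBit_or, Nat.testBit_shiftLeft]
  by_cases hb : b < 4
  · have : ¬ (4 * i + b ≥ 4 * (k + 1)) := by omega
    simp [this]
  · simp [hb]

theorem cl_new (cl j k : Nat) (hcl : cl < 2 ^ (4 * (k + 1))) (hj : j < 4) :
    ((cl ||| (j <<< (4 * (k + 1)))) >>> (4 * (k + 1))) % 16 = j := by
  have hj' : j = j % 16 := by omega
  conv_rhs => rw [hj']
  apply Nat.eq_of_testBit_eq
  intro b
  rw [show (16 : Nat) = 2 ^ 4 by norm_num, Nat.testBit_mod_two_pow, Nat.testBit_mod_two_pow,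
    Nat.testBit_shiftRight, Nat.testBit_or, Nat.testBit_shiftLeft]
  have : cl.testBit (4 * (k + 1) + b) = false := by
    apply Nat.testBit_lt_two_pow
    exact lt_of_lt_of_le hcl (Nat.pow_le_pow_right (by norm_num) (by omega))
  rw [this]
  simp

theorem cl_bound (cl j k : Nat) (hcl : cl < 2 ^ (4 * (k + 1))) (hj : j < 4) :
    (cl ||| (j <<< (4 * (k + 1)))) < 2 ^ (4 * (k + 1 + 1)) := by
  apply Nat.or_lt_two_pow
  · exact lt_of_lt_of_le hcl (Nat.pow_le_pow_right (by norm_num) (by omega))
  · rw [Nat.shiftLeft_eq, show 4 * (k + 1 + 1) = 4 * (k + 1) + 4 by ring, pow_add, mul_comm]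
    exact Nat.mul_lt_mul_of_pos_left (by omega) (by positivity)

theorem check_sound (c : V → Fin 4) (hc : ∀ u v, G.Adj u v → c u ≠ c v)
    (d : V → Fin 3) (hd : ∀ u v, G.Adj u v → d u ≠ d v)
    (hf : ∀ v i, i ≠ c v → ∃ w, G.Adj v w ∧ c w = i)
    (hP : ∀ a b c d e : V, G.Adj a b → G.Adj b c → G.Adj c d → G.Adj d e → ¬ G.Adj a c →
      ¬ G.Adj a d → ¬ G.Adj a e → ¬ G.Adj b d → ¬ G.Adj b e → ¬ G.Adj c e → False) :
    ∀ (t : T) (k cl pos neg : Nat) (f : Nat → V), Inv G c k cl pos neg f →
      check t k cl pos neg = true → False := by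
  intro t
  induction t with
  | p code =>
    intro k cl pos neg f I h
    rw [check, checkPath] at h
    simp only [Bool.and_eq_true] at h
    obtain ⟨⟨⟨⟨⟨⟨⟨⟨⟨a01, a12⟩, a23⟩, a34⟩, n02⟩, n03⟩, n04⟩, n13⟩, n14⟩, n24⟩ := h
    set v0 := code % 16
    set v1 := code / 16 % 16
    set v2 := code / 256 % 16
    set v3 := code / 4096 % 16
    set v4 := code / 65536 % 16
    have l0 : v0 < 16 := Nat.mod_lt _ (by norm_num)
    have l1 : v1 < 16 := Nat.mod_lt _ (by norm_num)
    have l2 : v2 < 16 := Nat.mod_lt _ (by norm_num)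
    have l3 : v3 < 16 := Nat.mod_lt _ (by norm_num)
    have l4 : v4 < 16 := Nat.mod_lt _ (by norm_num)
    have A : ∀ a b, b < 16 → adj pos a b = true → a ≤ k ∧ b ≤ k ∧ G.Adj (f a) (f b) := by
      intro a b hb hab
      have := I.h2 _ hab
      rw [show (16 * a + b) / 16 = a by omega, show (16 * a + b) % 16 = b by omega] at this
      exact this
    have N : ∀ a b, a ≤ k → b ≤ k → b < 16 → nonadj cl neg a b = true → ¬ G.Adj (f a) (f b) := by
      intro a b ha hb hb16 hab
      rw [nonadj, Bool.or_eq_true] at hab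
      rcases hab with hab | hab
      · have := I.h3 _ hab
        rw [show (16 * a + b) / 16 = a by omega, show (16 * a + b) % 16 = b by omega] at this
        exact this.2.2
      · intro hadj
        apply hc _ _ hadj
        apply Fin.ext
        rw [I.h1 a ha, I.h1 b hb]
        exact beq_iff_eq.mp hab
    obtain ⟨k0, k1, g01⟩ := A _ _ l1 a01
    obtain ⟨_, k2, g12⟩ := A _ _ l2 a12
    obtain ⟨_, k3, g23⟩ := A _ _ l3 a23
    obtain ⟨_, k4, g34⟩ := A _ _ l4 a34
    exact hP _ _ _ _ _ g01 g12 g23 g34 (N _ _ k0 k2 l2 n02) (N _ _ k0 k3 l3 n03)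
      (N _ _ k0 k4 l4 n04) (N _ _ k1 k3 l3 n13) (N _ _ k1 k4 l4 n14) (N _ _ k2 k4 l4 n24)
  | c n code =>
    intro k cl pos neg f I h
    rw [check] at h
    exact noCol_sound d hd pos f (fun x hx => (I.h2 x hx).2.2) n code 0 0 0
      (by simp) (by simp) (by simp) h
  | b i t0 t1 ih0 ih1 =>
    intro k cl pos neg f I h
    rw [check] at h
    simp only [Bool.and_eq_true] at h
    obtain ⟨⟨hik, h0⟩, h1⟩ := h
    have hik' : i < k := by simpa [Nat.blt_eq] using hik
    have hk := I.hk
    have e1 : (16 * k + i) / 16 = k := by omega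
    have e2 : (16 * k + i) % 16 = i := by omega
    have e3 : (16 * i + k) / 16 = i := by omega
    have e4 : (16 * i + k) % 16 = k := by omega
    by_cases hadj : G.Adj (f k) (f i)
    · refine ih1 _ _ _ _ f ⟨I.hk, I.hcl, I.h1, ?_, I.h3⟩ h1
      intro x hx
      rcases testBit_or_shift hx with hx | hx
      · rcases testBit_or_shift hx with hx | hx
        · exact I.h2 x hx
        · subst hx
          rw [e1, e2]
          exact ⟨le_refl _, le_of_lt hik', hadj⟩
      · subst hx
        rw [e3, e4]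
        exact ⟨le_of_lt hik', le_refl _, hadj.symm⟩
    · refine ih0 _ _ _ _ f ⟨I.hk, I.hcl, I.h1, I.h2, ?_⟩ h0
      intro x hx
      rcases testBit_or_shift hx with hx | hx
      · rcases testBit_or_shift hx with hx | hx
        · exact I.h3 x hx
        · subst hx
          rw [e1, e2]
          exact ⟨le_refl _, le_of_lt hik', hadj⟩
      · subst hx
        rw [e3, e4]
        exact ⟨le_of_lt hik', le_refl _, fun h => hadj h.symm⟩
  | e v j t ih =>
    intro k cl pos neg f I h
    rw [check] at h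
    simp only [Bool.and_eq_true] at h
    obtain ⟨⟨⟨⟨hv, hk⟩, hj⟩, hne⟩, ht⟩ := h
    have hv' : v ≤ k := by simpa [Nat.ble_eq] using hv
    have hk' : k < 15 := by simpa [Nat.blt_eq] using hk
    have hj' : j < 4 := by simpa [Nat.blt_eq] using hj
    have hne' : (cl >>> (4 * v)) % 16 ≠ j := by
      intro h0
      rw [h0] at hne
      simp at hne
    obtain ⟨w, hw1, hw2⟩ := hf (f v) ⟨j, hj'⟩ (by
      intro h0
      apply hne'
      rw [← I.h1 v hv', ← h0])
    have hold : ∀ i, i ≤ k → Function.update f (k + 1) w i = f i := by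
      intro i hi
      rw [Function.update_of_ne (by omega)]
    have hnew : Function.update f (k + 1) w (k + 1) = w := Function.update_self _ _ _
    refine ih _ _ _ _ (Function.update f (k + 1) w)
      ⟨by omega, cl_bound cl j k I.hcl hj', ?_, ?_, ?_⟩ ht
    · intro i hi
      rcases Nat.lt_or_ge k i with h1 | h1
      · have : i = k + 1 := by omega
        subst this
        rw [hnew, hw2, cl_new cl j k I.hcl hj']
      · rw [hold i h1, cl_old cl j k i h1, I.h1 i h1]
    · intro x hx
      rcases testBit_or_shift hx with hx | hx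
      · rcases testBit_or_shift hx with hx | hx
        · obtain ⟨p1, p2, p3⟩ := I.h2 x hx
          rw [hold _ p1, hold _ p2]
          exact ⟨by omega, by omega, p3⟩
        · subst hx
          rw [show (16 * (k + 1) + v) / 16 = k + 1 by omega,
            show (16 * (k + 1) + v) % 16 = v by omega, hnew, hold v hv']
          exact ⟨le_refl _, by omega, hw1.symm⟩
      · subst hx
        rw [show (16 * v + (k + 1)) / 16 = v by omega,
          show (16 * v + (k + 1)) % 16 = k + 1 by omega, hnew, hold v hv']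
        exact ⟨by omega, le_refl _, hw1⟩
    · intro x hx
      obtain ⟨p1, p2, p3⟩ := I.h3 x hx
      rw [hold _ p1, hold _ p2]
      exact ⟨by omega, by omega, p3⟩

/-- A graph in which five vertices satisfy the adjacency pattern of the 5-vertex path has an
induced 5-vertex path. -/
theorem pattern_path (hP5 : IsEmpty (SimpleGraph.pathGraph 5 ↪g G)) (a b c d e : V)
    (h01 : G.Adj a b) (h12 : G.Adj b c) (h23 : G.Adj c d) (h34 : G.Adj d e) (h02 : ¬ G.Adj a c)
    (h03 : ¬ G.Adj a d) (h04 : ¬ G.Adj a e) (h13 : ¬ G.Adj b d) (h14 : ¬ G.Adj b e)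
    (h24 : ¬ G.Adj c e) : False := by
  have hadj : ∀ i j : Fin 5, G.Adj (![a, b, c, d, e] i) (![a, b, c, d, e] j) ↔
      (SimpleGraph.pathGraph 5).Adj i j := by
    have r02 : ¬ G.Adj c a := fun h => h02 h.symm
    have r03 : ¬ G.Adj d a := fun h => h03 h.symm
    have r04 : ¬ G.Adj e a := fun h => h04 h.symm
    have r13 : ¬ G.Adj d b := fun h => h13 h.symm
    have r14 : ¬ G.Adj e b := fun h => h14 h.symm
    have r24 : ¬ G.Adj e c := fun h => h24 h.symm
    intro i j
    rw [SimpleGraph.pathGraph_adj]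
    fin_cases i <;> fin_cases j <;>
      simp [h01, h12, h23, h34, h02, h03, h04, h13, h14, h24, h01.symm, h12.symm, h23.symm,
        h34.symm, r02, r03, r04, r13, r14, r24]
  have hinj : Function.Injective (![a, b, c, d, e] : Fin 5 → V) := by
    intro i j hij
    have h1 : ∀ l : Fin 5, (SimpleGraph.pathGraph 5).Adj i l ↔
        (SimpleGraph.pathGraph 5).Adj j l := by
      intro l
      rw [← hadj, ← hadj, hij]
    simp only [SimpleGraph.pathGraph_adj] at h1
    clear hij
    revert h1
    revert i j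
    decide
  exact hP5.false ⟨⟨_, hinj⟩, fun {i j} => hadj i j⟩

end Pool.Agent.V11133.FrozenP5
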