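import Mathlib

/-!
Checker for the extension-search certificate used for statement S08250
(3-colourable P5-free graphs have no frozen 4-colouring).
-/

set_option autoImplicit false

namespace Pool.Agent.V11133.FrozenP5

/-- Certificate trees. -/
inductive T : Type
  | p : Nat → T
  | c : Nat → Nat → T
  | b : Nat → T → T → T
  | e : Nat → Nat → T → T

/-- Backtracking test that the listed vertices admit no proper 3-colouring in the graph `pos`. -/
def noCol (pos : Nat) : Nat → Nat → Nat → Nat → Nat → Bool
  | 0, _, _, _, _ => false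
  | n + 1, code, c0, c1, c2 =>
    let v := code % 16
    let r := (pos >>> (16 * v)) % 65536
    let s := 1 <<< v
    let code' := code / 16
    ((!((r &&& c0) == 0)) || noCol pos n code' (c0 ||| s) c1 c2) &&
    ((!((r &&& c1) == 0)) || noCol pos n code' c0 (c1 ||| s) c2) &&
    ((!((r &&& c2) == 0)) || noCol pos n code' c0 c1 (c2 ||| s))

/-- non-adjacency known -/
def nonadj (cl neg a b : Nat) : Bool :=
  neg.testBit (16 * a + b) || ((cl >>> (4 * a)) % 16 == (cl >>> (4 * b)) % 16)

def adj (pos a b : Nat) : Bool := pos.testBit (16 * a + b)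

def checkPath (cl pos neg code : Nat) : Bool :=
  let v0 := code % 16
  let v1 := code / 16 % 16
  let v2 := code / 256 % 16
  let v3 := code / 4096 % 16
  let v4 := code / 65536 % 16
  adj pos v0 v1 && adj pos v1 v2 && adj pos v2 v3 && adj pos v3 v4 &&
  nonadj cl neg v0 v2 && nonadj cl neg v0 v3 && nonadj cl neg v0 v4 &&
  nonadj cl neg v1 v3 && nonadj cl neg v1 v4 && nonadj cl neg v2 v4

/-- `check t k cl pos neg`: the certificate `t` refutes the state with `k + 1` vertices. -/
def check : T → Nat → Nat → Nat → Nat → Bool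
  | T.p code, _, cl, pos, neg => checkPath cl pos neg code
  | T.c n code, _, _, pos, _ => noCol pos n code 0 0 0
  | T.b i t0 t1, k, cl, pos, neg =>
      i.blt k &&
      check t0 k cl pos (neg ||| (1 <<< (16 * k + i)) ||| (1 <<< (16 * i + k))) &&
      check t1 k cl (pos ||| (1 <<< (16 * k + i)) ||| (1 <<< (16 * i + k))) neg
  | T.e v j t, k, cl, pos, neg =>
      v.ble k && k.blt 15 && j.blt 4 && !((cl >>> (4 * v)) % 16 == j) &&
      check t (k + 1) (cl ||| (j <<< (4 * (k + 1))))
        (pos ||| (1 <<< (16 * (k + 1) + v)) ||| (1 <<< (16 * v + (k + 1)))) neg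

end Pool.Agent.V11133.FrozenP5
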